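import Mathlib
import Pool.Agent.H759R2.Kad.Props
import Pool.Agent.H759R2.Kad.Props2
import Pool.Agent.H71R2.Kad.Block

open scoped ComplexOrder InnerProductSpace ComplexConjugate
open Finset

noncomputable section

namespace H294R2.Kad2

open H759R2.Kad

universe u v

variable {A : Type u} [CStarAlgebra A]
variable {H : Type v} [NormedAddCommGroup H] [InnerProductSpace ℂ H]

theorem amp_isHom [PartialOrder A] [StarOrderedRing A] {ι : Type} [Fintype ι] [DecidableEq ι]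
    {w : A →ₗ[ℂ] (H →L[ℂ] H)}
    (hw : IsHom w) : IsHom (amp w ι) := by
  refine ⟨fun X Y => amp_mul_of _ _ _ _ _ fun a b => hw.mul a b, ?_⟩
  ext v i
  rw [amp_apply, Finset.sum_eq_single i]
  · simp [CStarMatrix.one_apply, hw.one]
  · intro j _ hj
    simp [CStarMatrix.one_apply, Ne.symm hj]
  · simp

/-- A unitary scalar matrix acts isometrically on the Hilbert sum. -/
theorem sum_scal {ι : Type} [Fintype ι] [DecidableEq ι] {s : Matrix ι ι ℂ}
    (hs : s ∈ unitary (Matrix ι ι ℂ)) (v : ι → H) :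
    ∑ i, ‖∑ j, s i j • v j‖ ^ 2 = ∑ j, ‖v j‖ ^ 2 := by
  have h1 : ∀ i, ((‖∑ j, s i j • v j‖ ^ 2 : ℝ) : ℂ) =
      ∑ j, ∑ k, (star s j i * s i k) * ⟪v j, v k⟫_ℂ := by
    intro i
    have h := inner_self_eq_norm_sq_to_K (𝕜 := ℂ) (∑ j, s i j • v j)
    have h' : ((‖∑ j, s i j • v j‖ ^ 2 : ℝ) : ℂ) = ⟪∑ j, s i j • v j, ∑ j, s i j • v j⟫_ℂ := by
      rw [h]; push_cast; rfl
    rw [h', sum_inner]
    refine Finset.sum_congr rfl fun j _ => ?_
    rw [inner_sum]
    refine Finset.sum_congr rfl fun k _ => ?_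
    rw [inner_smul_left, inner_smul_right, Matrix.star_apply]
    rw [← mul_assoc]
    rfl
  have h2 : ((∑ i, ‖∑ j, s i j • v j‖ ^ 2 : ℝ) : ℂ) = ((∑ j, ‖v j‖ ^ 2 : ℝ) : ℂ) := by
    rw [Complex.ofReal_sum, Finset.sum_congr rfl fun i _ => h1 i, Finset.sum_comm]
    rw [Complex.ofReal_sum]
    refine Finset.sum_congr rfl fun j _ => ?_
    rw [Finset.sum_comm, Finset.sum_eq_single j]
    · rw [← Finset.sum_mul]
      have h3 : ∑ i, star s j i * s i j = (1 : Matrix ι ι ℂ) j j := by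
        rw [← Matrix.mul_apply, hs.1]
      rw [h3, Matrix.one_apply_eq, one_mul]
      have h := inner_self_eq_norm_sq_to_K (𝕜 := ℂ) (v j)
      rw [h]; push_cast; rfl
    · intro k _ hk
      rw [← Finset.sum_mul]
      have h3 : ∑ i, star s j i * s i k = (1 : Matrix ι ι ℂ) j k := by
        rw [← Matrix.mul_apply, hs.1]
      rw [h3, Matrix.one_apply_ne (Ne.symm hk), zero_mul]
    · simp
  exact_mod_cast h2

theorem norm_le_one_of_unitary {h : A} (hh : h ∈ unitary A) : ‖h‖ ≤ 1 := by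
  rcases subsingleton_or_nontrivial A with _ | _
  · rw [Subsingleton.elim h 0, norm_zero]; exact zero_le_one
  · exact (CStarRing.norm_of_mem_unitary hh).le

theorem norm_amp_tens_le {ι : Type} [Fintype ι] [DecidableEq ι] {w : A →ₗ[ℂ] (H →L[ℂ] H)}
    {c : ℝ} (hc : 0 ≤ c) (hw : ∀ b, ‖w b‖ ≤ c * ‖b‖) {s : Matrix ι ι ℂ}
    (hs : s ∈ unitary (Matrix ι ι ℂ)) {h : A} (hh : h ∈ unitary A) :
    ‖amp w ι (tens s h)‖ ≤ c := by
  refine ContinuousLinearMap.opNorm_le_bound _ hc fun v => ?_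
  have h0 : ‖w h‖ ≤ c := by
    have := mul_le_mul_of_nonneg_left (norm_le_one_of_unitary hh) hc
    exact (hw h).trans (by simpa using this)
  have h1 : ∀ i, amp w ι (tens s h) v i = w h (∑ j, s i j • v j) := by
    intro i
    rw [amp_apply, map_sum]
    refine Finset.sum_congr rfl fun j _ => ?_
    have : tens s h i j = s i j • h := rfl
    rw [this, map_smul, map_smul]
    rfl
  have h2 : ‖amp w ι (tens s h) v‖ ^ 2 ≤ (c * ‖v‖) ^ 2 := by
    rw [PiLp.norm_sq_eq_of_L2, mul_pow, PiLp.norm_sq_eq_of_L2 _ v, ← sum_scal hs (fun j => v j),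
      Finset.mul_sum]
    refine Finset.sum_le_sum fun i _ => ?_
    rw [h1 i, ← mul_pow]
    have h3 : ‖w h (∑ j, s i j • v j)‖ ≤ c * ‖∑ j, s i j • v j‖ :=
      (ContinuousLinearMap.le_opNorm _ _).trans (mul_le_mul_of_nonneg_right h0 (norm_nonneg _))
    exact pow_le_pow_left₀ (norm_nonneg _) h3 2
  exact le_of_sq_le_sq h2 (by positivity)

theorem star_tens {ι : Type} [Fintype ι] (s : Matrix ι ι ℂ) (h : A) :
    star (tens s h) = tens (star s) (star h) := by
  ext i j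
  rw [CStarMatrix.star_apply]
  change star (s j i • h) = (star s) i j • star h
  rw [star_smul, Matrix.star_apply]

end H294R2.Kad2

namespace H759R2.Kad

universe u v

open H294R2.Kad2

theorem prove2_dix (h : St_dix.{u}) : T2_dix.{u, v} := by
  intro A _ _ _ H _ _ _ w τ hw hτ hD c hc hwc ι _ _ _
  obtain ⟨htr, hdx⟩ := h A τ hτ hD ι
  refine ⟨amp_isHom hw, htr, fun X hX ε hε => ?_⟩
  obtain ⟨N, s, g, hN⟩ := hdx X hX ε hε
  refine ⟨N, fun k => ⟨tens (s k : Matrix ι ι ℂ) (g k : A), Block.tens_unitary (s k).2 (g k).2⟩,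
    fun k => ⟨norm_amp_tens_le hc hwc (s k).2 (g k).2, ?_⟩, hN⟩
  show ‖amp w ι (star (tens (s k : Matrix ι ι ℂ) (g k : A)))‖ ≤ c
  rw [star_tens]
  exact norm_amp_tens_le hc hwc (Unitary.star_mem (s k).2) (Unitary.star_mem (g k).2)

end H759R2.Kad
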